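import Pool.Agent.W5h14.TV.Tame

/-!
# Even type: a condition on the vertices outside a set of small dimension
-/

set_option autoImplicit false

namespace Pool.Agent.W5h83.TV2

open Finset Classical
open Pool.Agent.W907.SG Pool.Agent.W907.SM Pool.Agent.W5h83.FS
open Pool.Agent.W5h14.TV

variable {V : Type} {G : SimpleGraph V}

/-- no cliques with `i` elements -/
theorem lv_clq {A : Finset V} {i : ℕ} (h : ∀ T : Finset V, T ⊆ A → G.IsClique (T : Set V) → T.card < i) :
    LV (G.induce (A : Set V)) i := by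
  intro _ _ c hc
  funext w T
  refine hc.supp w T ?_
  rintro ⟨h1, h2⟩
  have h3 := h (T.map ⟨Subtype.val, Subtype.val_injective⟩) (by
    intro a ha
    rw [Finset.mem_map] at ha
    obtain ⟨x, _, rfl⟩ := ha
    exact x.2) (by
    intro a ha b hb hab
    rw [Finset.mem_coe, Finset.mem_map] at ha hb
    obtain ⟨x, hx, rfl⟩ := ha
    obtain ⟨y, hy, rfl⟩ := hb
    exact h1 hx hy fun e => hab (by rw [e]))
  rw [Finset.card_map] at h3
  omega

/-- even type, from the links of the vertices outside a set of small dimension -/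
theorem lv_evenU [Finite V] {S U : Finset V} {k : ℕ}
    (hU : ∀ T : Finset V, T ⊆ U → G.IsClique (T : Set V) → T.card ≤ k)
    (h1 : ∀ x ∈ S, x ∉ U → ∀ A ⊆ nb G S x, ∀ i, k ≤ i → LV (G.induce (A : Set V)) i) :
    ∀ A ⊆ S, ∀ i, k + 1 ≤ i → LV (G.induce (A : Set V)) i := by
  intro A
  induction A using Finset.strongInduction with
  | _ A ihA =>
    intro hA i hi
    by_cases h2 : A ⊆ U
    · exact lv_clq fun T hT hc => lt_of_le_of_lt (hU T (hT.trans h2) hc) (by omega)
    · obtain ⟨v, hv, hvU⟩ := not_subset.1 h2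
      exact lv_addF hv i (ihA _ (erase_ssubset hv) ((erase_subset v A).trans hA) i hi)
        fun j hj => h1 v (hA hv) hvU _ (nb_mono hA v) j (by omega)

end Pool.Agent.W5h83.TV2
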